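import Pool.Agent.Run7.h587.Ad.Def
import Pool.Agent.Run7.h587.Ad.Uni

/-!
# Zero-cycles on K3 surfaces adapted at two: finitely many rational points span, up to closure

Let `K` be a field of characteristic zero with an embedding `σ₀` in `ℚ₂`, for example `ℚ`, or a number
field with a place of degree one above `2`. Let `f` be a polynomial over `K` in `z₁, …, z_n`, of degree at
most four in each variable. The double cover `X : w² = f(z)` of `(ℙ¹)ⁿ` is a K3 surface for `n = 2` and `f`
with a smooth branch curve of bidegree `(4, 4)`, and a Calabi–Yau variety for `n ≥ 3`; let `ι` be its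
involution `w ↦ -w`. We suppose that `f` is *adapted at `2`*: the coefficients are `2`-integral, and for
all the points `(z, w)` of `w² = f(z)` over `ℚ₂` the coordinates `z_i` are `2`-adic integers, `w ≠ 0`, the
curves of genus one in the directions of the coordinates through the point are smooth, and `2 w` is
`2`-adically smaller than the partial derivatives `∂f/∂z_i` at `z`. For example (4) all the polynomials
`f ≡ 3 ∏ (z_i² + z_i + 1)² + ∑ (z_i² + z_i) + 2` modulo `4` with integral coefficients and of degree at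
most `4` in each variable are adapted at `2`; by (5) many of these have rational points.

For a `K`-point `Q` of the affine part the class of `[Q] + [ι Q]` does not depend on `Q`. The conjecture of
Bloch and Beilinson says that `CH²(X)_ℚ` is `ℚ` for a K3 surface `X` over a number field.

(1) For all the `K`-points `P`: the `K`-points `Q` such that `[Q] - [ι Q]` is an odd multiple of
`[P] - [ι P]` in the group of zero-cycles on `X` modulo rational equivalence over `K` are dense near `P`
in the product of the sets of the `K_v`-points, for all finite nonempty sets of `p`-adic places `v` of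
degree one over different primes `p`, with or without a real place.

(2) There is an integer `N`, the same for all the `K`-points `P`, such that these points `Q` are dense in
the set of all the `ℚ₂`-points of `X` which are congruent to `P` modulo `2^N`. If `P` is central (a
multiple of `[P] - [ι P]` is rationally equivalent to zero over the algebraic closure), so are all these
points `Q`; the closure of the set of the central `K`-points in the compact space `X(ℚ₂)` is a union of
residue classes modulo `2^N`.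

(3) There is a finite set `T` of `K`-points such that the `K`-points of `X` whose classes in the rational
Chow group of zero-cycles over `K` lie in the span of the classes of the points of `T` are dense in the
set of all the `K`-points, for the `2`-adic topology. More precisely, each `K`-point is the `2`-adic limit
of a sequence of `K`-points `Q` such that `[Q] - [ι Q]` is an odd multiple of `[P] - [ι P]`, for one
`P ∈ T`.

So on these K3 surfaces there is a set of rational points which is `2`-adically dense in the set of all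
the rational points and which spans a subspace of `CH²(X)_ℚ` of finite dimension (the conjecture says that
the dimension is one).

Zero-cycles are formal sums of points of the affine part `w² = f(z)`. The cycles in `Rat` are rationally
equivalent to zero; they are generated by the divisors of the functions `(u + v w) / (u - v w)` on the
curves in the directions of the coordinates, the differences of two points on the image of a line
`t ↦ (c(t), b(t))`, and the differences of two fibres of the projection `(z, w) ↦ z`. (These definitions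
are those of the result `EquivalentPointsDense` of this problem.)

Idea of the proof. The two points `(z, w)` and `(z, -w)` on a curve of genus one `w² = q(t)`,
`q(0) = w²`, in the direction of a coordinate are congruent modulo `2`; their difference in the Jacobian
has a nonintegral abscissa, so it has infinite order, for all the points over `ℚ₂`. Near each
`ℚ₂`-point, the moves by multiples of this difference from a `K`-point sufficiently close to it lead to a
dense set, with a radius which does not depend on the `K`-point. The space `X(ℚ₂)` is compact.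

The lemmas on the moves and their zero-cycles are due to helpers 5, 26, 35, 65, 68, 131, 210, 231, 254
(`Pool.Agent.Q35.ZC`) and 720 (`Pool.Agent.Y720`).
-/

set_option autoImplicit false

namespace Pool.Agent.Results.MP_9207e0_ag.AdaptedSurfaces

open MvPolynomial Pool.Agent.Run7.h587.Ad

section surfaces

/-- The point `(z, w)` lies on the double cover `w² = f(z)`. -/
def OnCover {F : Type} [Field F] {m : ℕ} (f : MvPolynomial (Fin m) F) (P : (Fin m → F) × F) :
    Prop :=
  P.2 ^ 2 = eval P.1 f

/-- The image of a point under an embedding of fields. -/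
def image {K F : Type} [Field K] [Field F] (φ : K →+* F) {m : ℕ}
    (P : (Fin m → K) × K) : (Fin m → F) × F :=
  (fun j => φ (P.1 j), φ P.2)

/-- The restriction `q(t) = f(x + t e_i)` of a polynomial to the line through `x` in the direction of
the `i`-th coordinate. -/
noncomputable def line {F : Type} [Field F] {m : ℕ} (f : MvPolynomial (Fin m) F) (x : Fin m → F)
    (i : Fin m) : Polynomial F :=
  aeval (fun k => Polynomial.C (x k) +
    Polynomial.C ((Pi.single i 1 : Fin m → F) k) * Polynomial.X) f

/-- The Jacobian of the curve `w² = q(t)`, where `q` is a polynomial of degree at most `4`. The curve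
is smooth of genus one if the discriminant of the Jacobian is not zero. -/
noncomputable def jacobian {K : Type} [Field K] (q : Polynomial K) : WeierstrassCurve K :=
  ⟨0, q.coeff 2, 0, q.coeff 1 * q.coeff 3 - 4 * q.coeff 0 * q.coeff 4,
    q.coeff 1 ^ 2 * q.coeff 4 + q.coeff 0 * q.coeff 3 ^ 2 - 4 * q.coeff 0 * q.coeff 2 * q.coeff 4⟩

/-- `F` is adapted: the degree in each variable is at most `4`, the coefficients are integral, and at
all the points of `w² = F(z)` over `ℚ₂` the coordinates `z_i` are integral, `w ≠ 0`, the curves in the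
directions of the coordinates are smooth, and `2 w` is smaller than the partial derivatives. -/
def Adapted {n : ℕ} (F : MvPolynomial (Fin n) ℚ_[2]) : Prop :=
  (∀ i, F.degreeOf i ≤ 4) ∧ (∀ m, ‖F.coeff m‖ ≤ 1) ∧
  ∀ (z : Fin n → ℚ_[2]) (w : ℚ_[2]), w ^ 2 = eval z F → w ≠ 0 ∧
    ∀ i, ‖z i‖ ≤ 1 ∧ ‖2 * w‖ < ‖eval z (pderiv i F)‖ ∧ (jacobian (line F z i)).Δ ≠ 0

end surfaces

section cycles

variable {F : Type} [Field F] {m : ℕ}

/-- The zero-cycle `[(x, w)]`. -/
noncomputable def pt (x : Fin m → F) (w : F) : ((Fin m → F) × F) →₀ ℤ := Finsupp.single (x, w) 1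

/-- The zero-cycle `[(x, w)] - [(x, -w)]`. -/
noncomputable def dl (x : Fin m → F) (w : F) : ((Fin m → F) × F) →₀ ℤ := pt x w - pt x (-w)

/-- The point `x + t e_i`. -/
def shift (x : Fin m → F) (i : Fin m) (t : F) : Fin m → F :=
  fun a => x a + t * (Pi.single i 1 : Fin m → F) a

/-- The function `u(t) + v(t) w` on the curve `w² = q(t)` has the zeros `T` (with multiplicities), and
no zero at infinity (as a section of the `M`-th power of the line bundle of degree two): `u` and `v` are
coprime, the function vanishes at the points `T` of the curve, its norm `u² - v² q` has degree `2 M` and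
the zeros `t`, `(t, w) ∈ T`. -/
def Zeros (q u v : Polynomial F) (T : Multiset (F × F)) : Prop :=
  IsCoprime u v ∧ (∀ s ∈ T, s.2 ^ 2 = q.eval s.1 ∧ u.eval s.1 + v.eval s.1 * s.2 = 0) ∧
    (∃ κ : F, κ ≠ 0 ∧ u ^ 2 - v ^ 2 * q =
      Polynomial.C κ * (T.map fun s => Polynomial.X - Polynomial.C s.1).prod) ∧
    ∃ M : ℕ, T.card = 2 * M ∧ u.natDegree ≤ M ∧ v.natDegree + 2 ≤ M

/-- The divisors of the functions `(u + v w) / (u - v w)` on the curves in the direction of a
coordinate. -/
def Fibral (f : MvPolynomial (Fin m) F) : Set (((Fin m → F) × F) →₀ ℤ) :=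
  {z | ∃ (x : Fin m → F) (i : Fin m) (u v : Polynomial F) (T : Multiset (F × F)),
    Zeros (line f x i) u v T ∧ z = (T.map fun s => dl (shift x i s.1) s.2).sum}

/-- The differences of two points on a rational curve, the image of a line under
`t ↦ (c(t), b(t))`. -/
def Curves (f : MvPolynomial (Fin m) F) : Set (((Fin m → F) × F) →₀ ℤ) :=
  {z | ∃ (c : Fin m → Polynomial F) (b : Polynomial F), b ^ 2 = aeval c f ∧
    z = pt (fun k => (c k).eval 0) (b.eval 0) - pt (fun k => (c k).eval 1) (b.eval 1)}

/-- The differences of two fibres of the projection `(x, w) ↦ x`. -/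
def Fibres (f : MvPolynomial (Fin m) F) : Set (((Fin m → F) × F) →₀ ℤ) :=
  {z | ∃ (x x' : Fin m → F) (w w' : F), w ^ 2 = eval x f ∧ w' ^ 2 = eval x' f ∧
    z = pt x w + pt x (-w) - pt x' w' - pt x' (-w')}

/-- A group of zero-cycles which are rationally equivalent to zero on `w² = f(x)`. -/
noncomputable def Rat (f : MvPolynomial (Fin m) F) : AddSubgroup (((Fin m → F) × F) →₀ ℤ) :=
  AddSubgroup.closure (Fibral f ∪ Curves f ∪ Fibres f)

end cycles

section points

variable {K : Type} [Field K] {m : ℕ}

/-- The rational points `Q` such that `[Q] - [ι Q]` is an odd multiple of `[P] - [ι P]`. -/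
def OddMultiples (f : MvPolynomial (Fin m) K) (P : (Fin m → K) × K) : Set ((Fin m → K) × K) :=
  {Q | OnCover f Q ∧ ∃ k : ℤ, dl Q.1 Q.2 - (2 * k + 1) • dl P.1 P.2 ∈ Rat f}

/-- The rational points `Q` such that a positive multiple of the cycle `[Q]` is rationally equivalent to
a linear combination of the cycles `[P]`, `P ∈ T`. -/
def Spanned (f : MvPolynomial (Fin m) K) (T : Set ((Fin m → K) × K)) : Set ((Fin m → K) × K) :=
  {Q | OnCover f Q ∧ ∃ N : ℕ, N ≠ 0 ∧
    N • pt Q.1 Q.2 ∈ AddSubgroup.closure {z | ∃ P ∈ T, z = pt P.1 P.2} ⊔ Rat f}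

/-- The embedding in the algebraic closure. -/
noncomputable abbrev toC (K : Type) [Field K] : K →+* AlgebraicClosure K :=
  algebraMap K (AlgebraicClosure K)

/-- The rational points `Q` such that a positive multiple of `[Q] - [ι Q]` is rationally equivalent to
zero over the algebraic closure. -/
def Central (f : MvPolynomial (Fin m) K) : Set ((Fin m → K) × K) :=
  {Q | OnCover f Q ∧ ∃ N : ℕ, N ≠ 0 ∧
    N • dl (image (toC K) Q).1 (image (toC K) Q).2 ∈ Rat (map (toC K) f)}

variable {ι : Type} {p : ι → ℕ} [∀ i, Fact (p i).Prime]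

/-- The points of `R` are dense near `P` in the product of the sets of the `ℚ_[p i]`-points. -/
def Dense (f : MvPolynomial (Fin m) K) (R : Set ((Fin m → K) × K)) (P : (Fin m → K) × K)
    (σ : ∀ i, K →+* ℚ_[p i]) : Prop :=
  ∃ U ∈ nhds (fun i => image (σ i) P), ∀ S ∈ U, (∀ i, OnCover (map (σ i) f) (S i)) →
    S ∈ closure {S | ∃ Q ∈ R, S = fun i => image (σ i) Q}

/-- The points of `R` are dense near `P` in the product of the set of the real points and of the sets
of the `ℚ_[p i]`-points. -/
def DenseReal (f : MvPolynomial (Fin m) K) (R : Set ((Fin m → K) × K)) (P : (Fin m → K) × K)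
    (σ : ∀ i, K →+* ℚ_[p i]) (τ : K →+* ℝ) : Prop :=
  ∃ U ∈ nhds (image τ P, fun i => image (σ i) P), ∀ S ∈ U, OnCover (map τ f) S.1 →
    (∀ i, OnCover (map (σ i) f) (S.2 i)) →
      S ∈ closure {S | ∃ Q ∈ R, S = (image τ Q, fun i => image (σ i) Q)}

/-- The points of `R` are dense near `P`, for all finite nonempty sets of `p`-adic places of degree one
over different primes, with or without a real place. -/
def DenseNear (f : MvPolynomial (Fin m) K) (R : Set ((Fin m → K) × K)) (P : (Fin m → K) × K) : Prop :=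
  ∀ (ι : Type) [Finite ι] [Nonempty ι] (p : ι → ℕ) [∀ v, Fact (p v).Prime],
    Function.Injective p → ∀ σ : ∀ v, K →+* ℚ_[p v],
      Dense f R P σ ∧ ∀ τ : K →+* ℝ, DenseReal f R P σ τ

/-- The closure of the set `R` of rational points in the space of the points over `ℚ₂`. -/
def Closure (σ : K →+* ℚ_[2]) (R : Set ((Fin m → K) × K)) : Set ((Fin m → ℚ_[2]) × ℚ_[2]) :=
  closure {S | ∃ Q ∈ R, S = image σ Q}

/-- The points `S` and `T` are congruent modulo `2 ^ N`. -/
def Congruent (N : ℕ) (S T : (Fin m → ℚ_[2]) × ℚ_[2]) : Prop :=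
  (∀ i, ‖S.1 i - T.1 i‖ ≤ 2⁻¹ ^ N) ∧ ‖S.2 - T.2‖ ≤ 2⁻¹ ^ N

end points

section members

/-- The polynomials `3 ∏ (z_i² + z_i + 1)² + ∑ (z_i² + z_i) + 2 + 4 g`. -/
noncomputable def member {n : ℕ} (g : MvPolynomial (Fin n) ℤ) : MvPolynomial (Fin n) ℤ :=
  3 * ∏ i, (X i ^ 2 + X i + 1) ^ 2 + ∑ i, (X i ^ 2 + X i) + 2 + 4 * g

/-- The polynomial with the coefficients `c`, of degree at most `4` in each variable. -/
noncomputable def poly {n : ℕ} (c : (Fin n → Fin 5) → ℤ) : MvPolynomial (Fin n) ℤ :=
  ∑ e, C (c e) * ∏ i, X i ^ (e i : ℕ)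

end members

lemma adapted_iff {n : ℕ} (F : MvPolynomial (Fin n) ℚ_[2]) :
    Adapted F ↔ Pool.Agent.Run7.h587.Ad.Adapted F := by
  rw [← adT_iff]
  exact Iff.rfl

section aux

variable {K : Type} [Field K] [CharZero K] {σ₀ : K →+* ℚ_[2]} {n : ℕ} {f : MvPolynomial (Fin n) K}

lemma near_set (hf : Adapted (map σ₀ f)) :
    ∃ N : ℕ, ∀ R, Cm f R → ∀ P ∈ R, ∀ S, OnCover (map σ₀ f) S →
      Congruent N S (image σ₀ P) → S ∈ Closure σ₀ R := by
  obtain ⟨ε, hε, h⟩ := unif ((adapted_iff _).1 hf)
  obtain ⟨N, hN⟩ := exists_pow_lt_of_lt_one hε (show (2⁻¹ : ℝ) < 1 by norm_num)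
  refine ⟨N, fun R hR P hP S hS hc => h R hR P hP S hS ?_⟩
  rw [Prod.dist_eq, max_lt_iff, dist_pi_lt_iff hε]
  simp only [dist_eq_norm]
  exact ⟨fun i => (hc.1 i).trans_lt hN, hc.2.trans_lt hN⟩

omit [CharZero K] in
lemma span_of_odd {P Q : (Fin n → K) × K} (hP : OnCover f P) {T : Set ((Fin n → K) × K)}
    (hPT : P ∈ T) (hPT' : (P.1, -P.2) ∈ T) (hQ : Q ∈ OddMultiples f P) : Q ∈ Spanned f T := by
  obtain ⟨hQX, k, hk⟩ := hQ
  refine ⟨hQX, 2, two_ne_zero, ?_⟩
  have h1 : pt Q.1 Q.2 + pt Q.1 (-Q.2) - pt P.1 P.2 - pt P.1 (-P.2) ∈ Rat f :=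
    AddSubgroup.subset_closure (Or.inr ⟨_, _, _, _, hQX, hP, rfl⟩)
  have h2 := add_mem h1 hk
  have h3 : pt P.1 P.2 ∈ AddSubgroup.closure {z | ∃ P ∈ T, z = pt P.1 P.2} :=
    AddSubgroup.subset_closure ⟨P, hPT, rfl⟩
  have h4 : pt P.1 (-P.2) ∈ AddSubgroup.closure {z | ∃ P ∈ T, z = pt P.1 P.2} :=
    AddSubgroup.subset_closure ⟨_, hPT', rfl⟩
  have h5 := AddSubgroup.mem_sup_left (T := Rat f)
    (add_mem (AddSubgroup.zsmul_mem _ h3 (2 * k + 2)) (AddSubgroup.zsmul_mem _ h4 (-2 * k)))
  have h6 := AddSubgroup.mem_sup_right (S := AddSubgroup.closure {z | ∃ P ∈ T, z = pt P.1 P.2}) h2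
  have h7 := add_mem h5 h6
  have e : (2 * k + 2) • pt P.1 P.2 + (-2 * k) • pt P.1 (-P.2) +
      (pt Q.1 Q.2 + pt Q.1 (-Q.2) - pt P.1 P.2 - pt P.1 (-P.2) +
        (dl Q.1 Q.2 - (2 * k + 1) • dl P.1 P.2)) = 2 • pt Q.1 Q.2 := by
    simp only [dl]
    module
  rwa [e] at h7

lemma finite_set (hf : Adapted (map σ₀ f)) :
    ∃ T : Set ((Fin n → K) × K), T.Finite ∧ (∀ P ∈ T, OnCover f P) ∧
      ∀ S ∈ Closure σ₀ {Q | OnCover f Q}, ∃ P ∈ T, S ∈ Closure σ₀ (OddMultiples f P) := by
  classical
  have hf' := (adapted_iff _).1 hf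
  have hd := map_degreeOf hf'.1
  obtain ⟨ε, hε, h⟩ := unif hf'
  have hcl : IsClosed {T : (Fin n → ℚ_[2]) × ℚ_[2] | OnCover (map σ₀ f) T} :=
    Pool.Agent.Results.MP_ed3816_nt.OpenAwayFromTorsion.isClosed_onCover (map σ₀ f)
  have hsub : Closure σ₀ {Q | OnCover f Q} ⊆ {T | OnCover (map σ₀ f) T} := by
    refine closure_minimal ?_ hcl
    rintro _ ⟨P, hP, rfl⟩
    exact Pool.Agent.Results.MP_ed3816_nt.OpenAwayFromTorsion.onCover_image σ₀ hP
  have hc : IsCompact (Closure σ₀ {Q | OnCover f Q}) :=
    (compact_two hf').of_isClosed_subset isClosed_closure hsub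
  obtain ⟨t, ht⟩ := hc.elim_finite_subcover
    (fun P : {P : (Fin n → K) × K // OnCover f P} => Metric.ball (image σ₀ P.1) ε)
    (fun _ => Metric.isOpen_ball) (fun S hS => by
      obtain ⟨_, ⟨P, hP, rfl⟩, h2⟩ := Metric.mem_closure_iff.1 hS ε hε
      exact Set.mem_iUnion.2 ⟨⟨P, hP⟩, h2⟩)
  refine ⟨(fun P => P.1) '' (t : Set {P : (Fin n → K) × K // OnCover f P}),
    t.finite_toSet.image _, ?_, fun S hS => ?_⟩
  · rintro _ ⟨P, -, rfl⟩
    exact P.2
  · obtain ⟨P, hPt, hSP⟩ := Set.mem_iUnion₂.1 (ht hS)
    exact ⟨P.1, ⟨P, hPt, rfl⟩, h _ (odds_cm hd P.1) P.1 ⟨P.2, 0, by simp⟩ S (hsub hS) hSP⟩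

end aux

/-- **Zero-cycles on adapted double covers.** -/
theorem result :
    (∀ (K : Type) [Field K] [CharZero K] (σ₀ : K →+* ℚ_[2]) (n : ℕ) (f : MvPolynomial (Fin n) K),
      Adapted (map σ₀ f) →
      -- (1) the odd multiples near each point
      (∀ P, OnCover f P → DenseNear f (OddMultiples f P) P) ∧
      -- (2) a uniform radius at the place `2`
      (∃ N : ℕ,
        (∀ P, OnCover f P → ∀ S, OnCover (map σ₀ f) S → Congruent N S (image σ₀ P) →
          S ∈ Closure σ₀ (OddMultiples f P)) ∧
        (∀ P ∈ Central f, OddMultiples f P ⊆ Central f) ∧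
        ∀ T ∈ Closure σ₀ (Central f), ∀ S, OnCover (map σ₀ f) S → Congruent N S T →
          S ∈ Closure σ₀ (Central f)) ∧
      -- (3) finitely many points span a dense set of points
      (∃ T : Set ((Fin n → K) × K), T.Finite ∧ (∀ P ∈ T, OnCover f P) ∧
        Closure σ₀ (Spanned f T) = Closure σ₀ {Q | OnCover f Q} ∧
        ∀ Q, OnCover f Q → ∃ P ∈ T, image σ₀ Q ∈ Closure σ₀ (OddMultiples f P))) ∧
    -- (4) the residue class modulo `4`
    (∀ (n : ℕ) (g : MvPolynomial (Fin n) ℤ), (∀ i, g.degreeOf i ≤ 4) →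
      Adapted (map (Int.castRingHom ℚ_[2]) (member g))) ∧
    -- (5) the members with a rational point over `z = 0` are Zariski dense
    (∀ (n : ℕ) (P : MvPolynomial (Fin n → Fin 5) ℂ), P ≠ 0 →
      ∃ (c : (Fin n → Fin 5) → ℤ) (w : ℤ), eval (fun e => (c e : ℂ)) P ≠ 0 ∧
        w ^ 2 = eval (fun _ => 0) (member (poly c))) := by
  refine ⟨?_, ?_, ?_⟩
  · intro K _ _ σ₀ n f hf
    have hf' := (adapted_iff _).1 hf
    have hd := map_degreeOf hf'.1
    refine ⟨fun P hP ι _ _ p _ hinj σ => near_adapted hf' hP hinj σ, ?_, ?_⟩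
    · obtain ⟨N, h⟩ := near_set hf
      refine ⟨N, fun P hP S hS hc => h _ (odds_cm hd P) P ⟨hP, 0, by simp⟩ S hS hc,
        fun P hP => Pool.Agent.Q35.ZC.odds_ct Pool.Agent.Q35.ZC.map2 hP, fun T hT S hS hc => ?_⟩
      -- a central point close to `T` is congruent to it
      obtain ⟨_, ⟨P, hP, rfl⟩, h2⟩ := Metric.mem_closure_iff.1 hT (2⁻¹ ^ N) (by positivity)
      refine h _ (ct_cm hd) P hP S hS ?_
      rw [Prod.dist_eq, max_lt_iff, dist_pi_lt_iff (by positivity)] at h2
      simp only [dist_eq_norm] at h2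
      have h3 : ∀ a b c : ℚ_[2], ‖a - b‖ ≤ 2⁻¹ ^ N → ‖b - c‖ < 2⁻¹ ^ N → ‖a - c‖ ≤ 2⁻¹ ^ N := by
        intro a b c h1 h2
        have h4 := Padic.nonarchimedean (a - b) (b - c)
        rw [sub_add_sub_cancel] at h4
        exact h4.trans (max_le h1 h2.le)
      exact ⟨fun i => h3 _ _ _ (hc.1 i) (h2.1 i), h3 _ _ _ hc.2 h2.2⟩
    · obtain ⟨T, hT, hTX, h⟩ := finite_set hf
      refine ⟨T ∪ (fun P => (P.1, -P.2)) '' T, hT.union (hT.image _), ?_, ?_, ?_⟩
      · rintro P (hP | ⟨P, hP, rfl⟩)
        · exact hTX P hP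
        · change (-P.2) ^ 2 = _
          rw [neg_sq]
          exact hTX P hP
      · apply Set.Subset.antisymm
        · refine closure_mono ?_
          rintro _ ⟨Q, hQ, rfl⟩
          exact ⟨Q, hQ.1, rfl⟩
        · intro S hS
          obtain ⟨P, hP, hSP⟩ := h S hS
          refine closure_mono ?_ hSP
          rintro _ ⟨Q, hQ, rfl⟩
          exact ⟨Q, span_of_odd (hTX P hP) (Or.inl hP) (Or.inr ⟨P, hP, rfl⟩) hQ, rfl⟩
      · intro Q hQ
        obtain ⟨P, hP, hQP⟩ := h (image σ₀ Q) (subset_closure ⟨Q, hQ, rfl⟩)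
        exact ⟨P, Or.inl hP, hQP⟩
  · intro n g hg
    exact (adapted_iff _).2 ((adT_iff _).1 (mem_adT hg))
  · intro n P hP
    obtain ⟨c, w, h4, h5⟩ := exist hP
    rw [← mem_eq] at h5
    exact ⟨c, w, h4, h5⟩

end Pool.Agent.Results.MP_9207e0_ag.AdaptedSurfaces
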