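import Mathlib
import Pool.Agent.Run7.h508.ZC.Rep
import Pool.Agent.Run7.h508.BR.DFF

/-!
# Zero-cycles over all number fields and everywhere unramified extensions of prime degree

`X` is a projective variety (for example a K3 surface) over a totally complex number field `k`, with
the equations `F = 0`, `F ∈ I`. Zero-cycles on `X` over the algebraic closure `Ω` of `k` and their
rational equivalence are constructed in `Pool.Agent.Run7.h508.ZC.Cyc`: `Pt Ω I` are homogeneous
coordinates of points, `rat Ω I` is generated by the differences of two fibres of finite étale covers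
of open parts of the line mapped to `X`, and by `[cP] - [P]`. `Chow Ω I` is the group `CH₀(X_Ω)_ℚ`,
and `chowAct σ` is the action of the automorphisms `σ` of `Ω` over `k`.

By Galois descent `CH₀(X_K)_ℚ` is the space of the classes fixed by the automorphisms which fix `K`.
We show: `CH₀(X_Ω)_ℚ` is one-dimensional, that is, all zero-cycles of degree zero vanish, if this
holds for the cycles over `k`, and if `CH₀(X_K)_ℚ = CH₀(X_L)_ℚ` for the everywhere unramified Galois
extensions `L/K` of prime degree, `K ⊇ k`, completely split above a given integer `m`. The spaces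
`CH₀(X_K)_ℚ` are finite-dimensional for all number fields `K ⊇ k` if this holds for `K = k` and they
grow by finite-dimensional spaces in these unramified extensions.
-/

set_option autoImplicit false
set_option linter.unusedSectionVars false

namespace Pool.Agent.Results.MP_9207e0_ag.GrowthInUnramifiedExtensions

open NumberField Pool.Agent.Run7.h508.ZC

/-- All inertia groups of `L/K` are trivial, and the decomposition groups of the primes above `m`
are trivial. -/
def UnramifiedSplit (m : ℕ) (K L : Type) [Field K] [Field L] [Algebra K L] : Prop :=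
  ∀ P : Ideal (𝓞 L), P.IsMaximal → ∀ g : L ≃ₐ[K] L,
    ((∀ x y : 𝓞 L, (y : L) = g x → y - x ∈ P) → g = 1) ∧
    ((m : 𝓞 L) ∈ P → (∀ x y : 𝓞 L, (y : L) = g x → (y ∈ P ↔ x ∈ P)) → g = 1)

section defs

variable {k : Type} [Field k] {Ω : Type} [Field Ω] [Algebra k Ω] {n : ℕ}
  (I : Set (MvPolynomial (Fin (n + 1)) k))

/-- The classes of degree zero which are fixed by the automorphisms of `Ω` over `k` which fix the
field `j(K)`: the space `CH₀(X_K)_{ℚ, 0}`. -/
noncomputable def classesOver {K : Type} [Field K] [Algebra k K] (j : K →ₐ[k] Ω) :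
    Submodule ℚ (Chow Ω I) where
  carrier := {c | c ∈ deg0 Ω I ∧ ∀ σ : Ω ≃ₐ[k] Ω, (∀ x : K, σ (j x) = j x) → chowAct Ω I σ c = c}
  zero_mem' := ⟨Submodule.zero_mem _, fun σ _ => map_zero _⟩
  add_mem' := fun {a b} ha hb => ⟨Submodule.add_mem _ ha.1 hb.1, fun σ h => by
    rw [map_add, ha.2 σ h, hb.2 σ h]⟩
  smul_mem' := fun q a ha => ⟨Submodule.smul_mem _ q ha.1, fun σ h => by
    rw [map_smul, ha.2 σ h]⟩

end defs

section cases

variable {k : Type} [Field k] [NumberField k] (Ω : Type) [Field Ω] [Algebra k Ω] {n : ℕ}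
  (I : Set (MvPolynomial (Fin (n + 1)) k))

/-- No growth in the everywhere unramified extensions `L/K` of prime degree, split above `m`. -/
def UnramifiedNoGrowth (m : ℕ) : Prop :=
  ∀ (K L : Type) [Field K] [NumberField K] [Field L] [NumberField L] [Algebra k K] [Algebra K L]
    [Algebra k L] [IsScalarTower k K L] [IsGalois K L], (Module.finrank K L).Prime →
    UnramifiedSplit m K L → ∀ j : L →ₐ[k] Ω,
    classesOver I j ≤ classesOver I (j.comp (IsScalarTower.toAlgHom k K L))

/-- Finite-dimensional growth in the everywhere unramified extensions `L/K` of prime degree, split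
above `m`. -/
def UnramifiedFiniteGrowth (m : ℕ) : Prop :=
  ∀ (K L : Type) [Field K] [NumberField K] [Field L] [NumberField L] [Algebra k K] [Algebra K L]
    [Algebra k L] [IsScalarTower k K L] [IsGalois K L], (Module.finrank K L).Prime →
    UnramifiedSplit m K L → ∀ j : L →ₐ[k] Ω, ∃ W : Submodule ℚ (Chow Ω I), W.FG ∧
      classesOver I j ≤ classesOver I (j.comp (IsScalarTower.toAlgHom k K L)) ⊔ W

end cases

section proof

open Pool.Agent.Run7.h508.BR

lemma unrSplit_of {m : ℕ} {K L : Type} [Field K] [Field L] [Algebra K L]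
    (h : UnrSplit m K L) : UnramifiedSplit m K L := by
  intro P hP g
  refine ⟨fun h1 => (h P hP).1 g fun x => h1 x _ rfl, fun hm h1 => (h P hP).2 hm g fun x =>
    h1 x _ rfl⟩

variable {k : Type} [Field k] [NumberField k] {Ω : Type} [Field Ω] [Algebra k Ω]
  [IsAlgClosed Ω] [Algebra.IsAlgebraic k Ω] {n : ℕ} {I : Set (MvPolynomial (Fin (n + 1)) k)}

lemma mem_classes {K : Type} [Field K] [Algebra k K] {j : K →ₐ[k] Ω} {c : Chow Ω I} :
    c ∈ classesOver I j ↔ c ∈ deg0 Ω I ∧ CFixed j c := Iff.rfl

lemma cNoGrow_of {m : ℕ} (h : UnramifiedNoGrowth Ω I m) : CNoGrow (deg0 Ω I) m := by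
  intro K L _ _ _ _ _ _ _ _ _ hK hp hu j c hcT hc
  exact (h K L hp (unrSplit_of hu) j (mem_classes.mpr ⟨hcT, hc⟩)).2

/-- the space of classes and the fixed space of the representation -/
lemma map_fix {K : Type} [Field K] [Algebra k K] (j : K →ₐ[k] Ω) :
    (fixSub (trep Ω I (deg0 Ω I) (deg0_stable Ω I)) j).map (deg0 Ω I).subtype =
      classesOver I j := by
  ext c
  constructor
  · rintro ⟨v, hv, rfl⟩
    exact ⟨v.2, (fixed_iff (deg0 Ω I) (deg0_stable Ω I) j v).mp hv⟩
  · rintro ⟨h1, h2⟩
    exact ⟨⟨c, h1⟩, (fixed_iff (deg0 Ω I) (deg0_stable Ω I) j ⟨c, h1⟩).mpr h2, rfl⟩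

lemma fg_iff {K : Type} [Field K] [Algebra k K] (j : K →ₐ[k] Ω) :
    (classesOver I j).FG ↔
      FiniteDimensional ℚ (fixSub (trep Ω I (deg0 Ω I) (deg0_stable Ω I)) j) := by
  rw [← map_fix]
  constructor
  · intro h
    exact Module.Finite.iff_fg.mpr
      (Submodule.fg_of_fg_map_injective _ Subtype.val_injective h)
  · intro h
    exact Submodule.FG.map _ (Module.Finite.iff_fg.mp h)

lemma gFin_of {m : ℕ} (h : UnramifiedFiniteGrowth Ω I m) :
    GFinGrow (trep Ω I (deg0 Ω I) (deg0_stable Ω I)) m := by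
  intro K L _ _ _ _ _ _ _ _ _ hK hp hu j
  obtain ⟨W, hW, hle⟩ := h K L hp (unrSplit_of hu) j
  refine ⟨(W ⊓ deg0 Ω I).comap (deg0 Ω I).subtype, ?_, ?_⟩
  · refine Submodule.fg_of_fg_map_injective (deg0 Ω I).subtype Subtype.val_injective ?_
    rw [Submodule.map_comap_subtype, inf_comm, inf_assoc, inf_idem]
    exact Submodule.FG.of_le hW inf_le_left
  · intro v hv
    have h1 : v.1 ∈ classesOver I j := by
      rw [← map_fix]
      exact ⟨v, hv, rfl⟩
    obtain ⟨a, ha, w, hw, hsum⟩ := Submodule.mem_sup.mp (hle h1)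
    have hwd : w ∈ deg0 Ω I := by
      have h2 : w = v.1 - a := by rw [← hsum, add_sub_cancel_left]
      rw [h2]
      exact Submodule.sub_mem _ v.2 ha.1
    rw [← map_fix] at ha
    obtain ⟨a', ha', rfl⟩ := ha
    exact Submodule.mem_sup.mpr ⟨a', ha', ⟨w, hwd⟩, ⟨hw, hwd⟩, Subtype.ext hsum⟩

end proof

/-- **Main theorem.** Let `k` be a totally complex number field with algebraic closure `Ω`, let `X`
be the projective variety with the equations `F = 0`, `F ∈ I`, and let `m > 0`.

* If `CH₀(X_K)_{ℚ, 0}` does not grow in the everywhere unramified extensions of prime degree, split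
  above `m`, of the number fields `K ⊇ k`, then it does not grow in any extension.
* All zero-cycles of degree zero on `X_Ω` are rationally equivalent to zero (with rational
  coefficients) if and only if this holds for the classes defined over `k`, and there is no growth
  in these unramified extensions.
* If `CH₀(X_K)_{ℚ, 0}` grows by finite-dimensional spaces in these unramified extensions, then so it
  does in all extensions: if it is finite-dimensional for `K`, then also for all `L ⊇ K`. So it is
  finite-dimensional for all number fields `K ⊇ k` if and only if this holds for `K = k` and the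
  growth in these unramified extensions is finite-dimensional. -/
theorem result (k : Type) [Field k] [NumberField k] (hk : IsTotallyComplex k) (Ω : Type) [Field Ω]
    [Algebra k Ω] [IsAlgClosed Ω] [Algebra.IsAlgebraic k Ω] (n : ℕ)
    (I : Set (MvPolynomial (Fin (n + 1)) k)) (m : ℕ) (hm : m ≠ 0) :
    (UnramifiedNoGrowth Ω I m → ∀ (K L : Type) [Field K] [NumberField K] [Field L] [NumberField L]
      [Algebra k K] [Algebra k L] (f : K →ₐ[k] L) (j : L →ₐ[k] Ω),
      classesOver I j = classesOver I (j.comp f)) ∧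
    ((deg0 Ω I = ⊥) ↔ classesOver I (Algebra.ofId k Ω) = ⊥ ∧ UnramifiedNoGrowth Ω I m) ∧
    (UnramifiedFiniteGrowth Ω I m → ∀ (K L : Type) [Field K] [NumberField K] [Field L]
      [NumberField L] [Algebra k K] [Algebra k L] (f : K →ₐ[k] L) (j : L →ₐ[k] Ω),
      (classesOver I (j.comp f)).FG → (classesOver I j).FG) ∧
    ((∀ (K : Type) [Field K] [NumberField K] [Algebra k K] (j : K →ₐ[k] Ω),
        (classesOver I j).FG) ↔
      (classesOver I (Algebra.ofId k Ω)).FG ∧ UnramifiedFiniteGrowth Ω I m) := by
  have hcx : ∀ (K : Type) [Field K] [NumberField K] [Algebra k K], IsTotallyComplex K :=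
    fun K _ _ _ => Pool.Agent.Run7.h508.BR.complex_above hk
  have hsub : ∀ (K L : Type) [Field K] [Field L] [Algebra k K] [Algebra k L] (f : K →ₐ[k] L)
      (j : L →ₐ[k] Ω), classesOver I (j.comp f) ≤ classesOver I j :=
    fun K L _ _ _ _ f j c hc => ⟨hc.1, fun σ hσ => hc.2 σ fun x => hσ (f x)⟩
  have hA : UnramifiedFiniteGrowth Ω I m → ∀ (K L : Type) [Field K] [NumberField K] [Field L]
      [NumberField L] [Algebra k K] [Algebra k L] (f : K →ₐ[k] L) (j : L →ₐ[k] Ω),
      (classesOver I (j.comp f)).FG → (classesOver I j).FG := by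
    intro h K L _ _ _ _ _ _ f j hfg
    rw [fg_iff] at hfg ⊢
    exact Pool.Agent.Run7.h508.BR.gm_finite _ hm (gFin_of h) K L (hcx K) f j hfg
  refine ⟨fun h K L _ _ _ _ _ _ f j => le_antisymm (fun c hc => ?_) (hsub K L f j), ⟨fun h => ?_,
    fun h => ?_⟩, hA, ⟨fun h => ⟨?_, fun K L _ _ _ _ _ _ _ _ _ hp hu j => ?_⟩, fun h K _ _ _ j => ?_⟩⟩
  · exact ⟨hc.1, c_noGrow (deg0 Ω I) (deg0_stable Ω I) hm (cNoGrow_of h) K L (hcx K) f j c hc.1 hc.2⟩
  · have h1 : ∀ c ∈ deg0 Ω I, c = 0 := by
      intro c hc
      rw [h] at hc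
      exact hc
    refine ⟨?_, fun K L _ _ _ _ _ _ _ _ _ _ _ j c hc => ?_⟩
    · rw [eq_bot_iff]
      intro c hc
      rw [h1 c hc.1]
      exact Submodule.zero_mem _
    · rw [h1 c hc.1]
      exact Submodule.zero_mem _
  · rw [eq_bot_iff]
    intro c hc
    rw [c_vanish (deg0 Ω I) (deg0_stable Ω I) hm hk (fun c hcT hc => ?_) (cNoGrow_of h.2) c hc]
    · exact Submodule.zero_mem _
    · have h2 : c ∈ classesOver I (Algebra.ofId k Ω) := ⟨hcT, fun σ _ => hc σ⟩
      rw [h.1] at h2
      exact h2
  · exact h k (Algebra.ofId k Ω)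
  · exact ⟨classesOver I j, h L j, le_sup_right⟩
  · refine hA h.2 k K (Algebra.ofId k K) j ?_
    have h2 : j.comp (Algebra.ofId k K) = Algebra.ofId k Ω := Subsingleton.elim _ _
    rw [h2]
    exact h.1

end Pool.Agent.Results.MP_9207e0_ag.GrowthInUnramifiedExtensions
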