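import Pool.Agent.Run7.h587.Ad.Few
import Pool.Agent.Run7.h587.Ad.Exm
import Pool.Agent.Run7.h587.Ad.Zd

/-!
# Zero-cycles on K3 surfaces: seventeen rational points span, up to closure

Let `K` be a field of characteristic zero with an embedding `σ` in `ℚ₂`, for example `ℚ`, or a number
field with a place of degree one above `2`, and let `f` be a polynomial over `K` in `z₁, …, z_n`, `n ≥ 1`,
of degree at most four in each variable. The double cover `X : w² = f(z)` of `(ℙ¹)ⁿ` is a K3 surface for
`n = 2` and `f` with a smooth branch curve of bidegree `(4, 4)`, and a Calabi–Yau variety for `n ≥ 3`; let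
`ι` be its involution `w ↦ -w`. We suppose that `f` is *strongly adapted at `2`*: the coefficients are
`2`-integral, and for all the points `(z, w)` of `w² = f(z)` over `ℚ₂` the coordinates `z_i` are `2`-adic
integers, `w` and the partial derivatives `∂f/∂z_i` at `z` are units, and the curves of genus one in the
directions of the coordinates through the point are smooth. For example (4) all the polynomials
`f ≡ 3 ∏ (z_i² + z_i + 1)² + ∑ (z_i² + z_i) + 2` modulo `4` with integral coefficients and of degree at
most `4` in each variable are strongly adapted.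

For a `K`-point `Q` the class of `[Q] + [ι Q]` does not depend on `Q`. The conjecture of Bloch and
Beilinson says that `CH²(X)_ℚ` is `ℚ` for a K3 surface `X` over a number field. In `AdaptedSurfaces`, it
is shown that there is a finite set of `K`-points such that the `K`-points whose classes are in the span
of this set are `2`-adically dense in the set of all the `K`-points. Here the set is bounded, independently
of `K` and `X`, and the closures are determined.

(1) For all the `K`-points `P`: the `K`-points `Q` such that `[Q] - [ι Q]` is an odd multiple of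
`[P] - [ι P]` in the group of zero-cycles on `X` modulo rational equivalence over `K` are dense in the set
of all the `ℚ₂`-points whose coordinates `z_i` are congruent to those of `P` modulo `8`. If `P` is central
(a multiple of `[P] - [ι P]` is rationally equivalent to zero over the algebraic closure), so are all
these points `Q`.

(2) The closure of the set of the central `K`-points in the space `X(ℚ₂)` is the set of all the
`ℚ₂`-points whose coordinates `z_i` are congruent modulo `8` to those of a central `K`-point.

(3) There is a set `T` of at most `8ⁿ + 1` `K`-points of `X` such that the `K`-points whose classes in the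
rational Chow group of zero-cycles over `K` lie in the span of the classes of the points of `T` are
`2`-adically dense in the set of all the `K`-points. More precisely, each `K`-point is the `2`-adic limit
of a sequence of `K`-points `Q` such that `[Q] - [ι Q]` is an odd multiple of `[P] - [ι P]`, for one
`P ∈ T`.

(5) For all the surfaces of the class in (4), `n = 2`, over all the fields `K`, the same is true for a
set `T` of at most `17` points. So for these K3 surfaces, a subspace of `CH²(X)_ℚ` of dimension at most
`17` contains the classes of a set of rational points which is `2`-adically dense in the set of all the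
rational points (the conjecture says that the dimension is one).

(6) The double covers of `ℙ¹ × ℙ¹` over `ℚ` in the class with a set `T` of at most `17` rational points
such that the rational points in the span of `T` are dense in `X(ℚ₂)` are Zariski dense in the space of
all double covers branched along curves of bidegree `(4, 4)`.

(7) An example for (6) is `f = 3 (u₁ + 1)² (u₂ + 1)² + 8 u₁ u₂ (u₁ + u₂ - 12) + u₁ + u₂ + 10`,
`u_i = z_i² + z_i`.

Zero-cycles are formal sums of points of the affine part `w² = f(z)`. The cycles in `Rat` are rationally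
equivalent to zero; they are generated by the divisors of the functions `(u + v w) / (u - v w)` on the
curves in the directions of the coordinates, the differences of two points on the image of a line
`t ↦ (c(t), b(t))`, and the differences of two fibres of the projection `(z, w) ↦ z`. (These definitions
are those of `AdaptedSurfaces` and `EquivalentPointsDense`.)

Idea of the proof. Let `C : w² = q(t)`, `q(0) = w²`, be a curve of genus one in the direction of a
coordinate through a `K`-point `P = (z, w)`. The difference `D` of `(z, w)` and `(z, -w)` in the Jacobian of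
`C` has an abscissa of absolute value `4`. So `D` is a topological generator of the kernel of the
reduction of the Weierstrass equation of the Jacobian over `ℚ₂`, and the points `P + m D` fill all the
residues of `z_i` congruent to the one of `P` modulo `8`. Now one moves in the directions of the
coordinates one after the other. For the surfaces in (5), there are at most `16` residue classes of
`(z₁, z₂)` modulo `8` which contain points of `X(ℚ₂)`. See `ResiduesModEight` (MP_ed3816_nt), where it is
also shown that there are many surfaces over `ℚ` with rational points in all these residue classes.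
-/

set_option autoImplicit false

namespace Pool.Agent.Results.MP_9207e0_ag.SpanOfFewPoints

open MvPolynomial Pool.Agent.Run7.h587.Ad
open Pool.Agent.Results.MP_9207e0_ag.AdaptedSurfaces
  (OnCover image line jacobian OddMultiples Spanned Central Closure member poly)

/-- `F` is strongly adapted: the degree in each variable is at most `4`, the coefficients are
integral, and at all the points of `w² = F(z)` over `ℚ₂` the coordinates `z_i` are integral, `w` and
the partial derivatives are units, and the curves in the directions of the coordinates are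
smooth. -/
def StronglyAdapted {n : ℕ} (F : MvPolynomial (Fin n) ℚ_[2]) : Prop :=
  (∀ i, F.degreeOf i ≤ 4) ∧ (∀ m, ‖F.coeff m‖ ≤ 1) ∧
  ∀ (z : Fin n → ℚ_[2]) (w : ℚ_[2]), w ^ 2 = eval z F → ‖w‖ = 1 ∧
    ∀ i, ‖z i‖ ≤ 1 ∧ ‖eval z (pderiv i F)‖ = 1 ∧ (jacobian (line F z i)).Δ ≠ 0

/-- The points `S` and `P` have the same coordinates `z_i` modulo `8`. -/
def Congr {K : Type} [Field K] {n : ℕ} (σ : K →+* ℚ_[2]) (S : (Fin n → ℚ_[2]) × ℚ_[2])
    (P : (Fin n → K) × K) : Prop :=
  ∀ i, ‖S.1 i - σ (P.1 i)‖ ≤ 1 / 8

/-- The example: `3 (u₁ + 1)² (u₂ + 1)² + 8 u₁ u₂ (u₁ + u₂ - 12) + u₁ + u₂ + 10`, where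
`u_i = z_i² + z_i`. -/
noncomputable def exampleK3 : MvPolynomial (Fin 2) ℤ :=
  3 * (X 0 ^ 2 + X 0 + 1) ^ 2 * (X 1 ^ 2 + X 1 + 1) ^ 2 +
    8 * (X 0 ^ 2 + X 0) * (X 1 ^ 2 + X 1) * (X 0 ^ 2 + X 0 + (X 1 ^ 2 + X 1) - 12) +
    (X 0 ^ 2 + X 0) + (X 1 ^ 2 + X 1) + 10

/-- The points of `T` lie on `X`, the points in their span are `2`-adically dense in the set of all the
`K`-points, and each `K`-point is a limit of points `Q` such that `[Q] - [ι Q]` is an odd multiple of
`[P] - [ι P]` for one point `P` of `T`. -/
def Spans {K : Type} [Field K] {n : ℕ} (f : MvPolynomial (Fin n) K) (σ : K →+* ℚ_[2])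
    (T : Finset ((Fin n → K) × K)) : Prop :=
  (∀ P ∈ T, OnCover f P) ∧
  Closure σ (Spanned f T) = Closure σ {Q | OnCover f Q} ∧
  ∀ Q, OnCover f Q → ∃ P ∈ T, image σ Q ∈ Closure σ (OddMultiples f P)

/-- There are at most `17` rational points such that the rational points in their span are dense in
the set of all the `2`-adic points. -/
def DenseSpan (f : MvPolynomial (Fin 2) ℤ) : Prop :=
  ∃ T : Finset ((Fin 2 → ℚ) × ℚ), T.card ≤ 17 ∧
    (∀ P ∈ T, OnCover (map (Int.castRingHom ℚ) f) P) ∧
    {S | OnCover (map (Int.castRingHom ℚ_[2]) f) S} ⊆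
      Closure (algebraMap ℚ ℚ_[2]) (Spanned (map (Int.castRingHom ℚ) f) T)

section aux

variable {K : Type} [Field K] [CharZero K] {n : ℕ} {f : MvPolynomial (Fin n) K}

lemma adapted_of (F : MvPolynomial (Fin n) ℚ_[2]) (h : StronglyAdapted F) :
    Pool.Agent.Run7.h587.Ad.Adapted F ∧ Unit2 F := by
  refine ⟨(adT_iff _).1 ⟨h.1, h.2.1, fun z w hw => ?_⟩, fun z w hw => ?_⟩
  · obtain ⟨h1, h2⟩ := h.2.2 z w hw
    refine ⟨?_, fun i => ⟨(h2 i).1, ?_, (h2 i).2.2⟩⟩
    · rintro rfl
      rw [norm_zero] at h1
      exact zero_ne_one h1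
    · rw [(h2 i).2.1, norm_mul, n2, h1]
      norm_num
  · obtain ⟨h1, h2⟩ := h.2.2 z w hw
    exact ⟨h1, fun i => (h2 i).2.1⟩

lemma strongly_of {F : MvPolynomial (Fin n) ℚ_[2]} (h : Pool.Agent.Run7.h587.Ad.Adapted F)
    (hu : Unit2 F) : StronglyAdapted F := by
  have h' := (adT_iff _).2 h
  refine ⟨h.1, h.2.1, fun z w hw => ⟨(hu z w hw).1, fun i => ⟨?_, (hu z w hw).2 i, ?_⟩⟩⟩
  · exact ((h.2.2 z w hw).2 i).1
  · exact ((h'.2.2 z w hw).2 i).2.2

omit [CharZero K] in
lemma spans_of {σ : K →+* ℚ_[2]} {T : Finset ((Fin n → K) × K)}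
    (h1 : ∀ P ∈ T, P.2 ^ 2 = eval P.1 f)
    (h2 : closure (ImR {Q | Q.2 ^ 2 = eval Q.1 f} σ) ⊆ closure (ImR (Spanned f T) σ))
    (h3 : ∀ Q : (Fin n → K) × K, Q.2 ^ 2 = eval Q.1 f → ∃ P ∈ T,
      Pool.Agent.Q35.ZC.image σ Q ∈ closure (ImR (OddMultiples f P) σ)) : Spans f σ T := by
  refine ⟨h1, Set.Subset.antisymm ?_ h2, h3⟩
  refine closure_mono ?_
  rintro _ ⟨Q, hQ, rfl⟩
  exact ⟨Q, hQ.1, rfl⟩

lemma dense_of {g : MvPolynomial (Fin 2) ℤ} (hg : ∀ i, g.degreeOf i ≤ 4)
    (h : ∀ S : (Fin 2 → ℚ_[2]) × ℚ_[2], Pool.Agent.Q35.ZC.OnCover (fc ℚ_[2] g) S →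
      S ∈ closure (ImR {P : (Fin 2 → ℚ) × ℚ | Pool.Agent.Q35.ZC.OnCover (fc ℚ g) P}
        (algebraMap ℚ ℚ_[2]))) : DenseSpan (member g) := by
  obtain ⟨T, h1, h2, h3, -⟩ := few_two hg (algebraMap ℚ ℚ_[2])
  have e1 : map (Int.castRingHom ℚ) (member g) = fc ℚ g := mem_map ℚ g
  have e2 : map (Int.castRingHom ℚ_[2]) (member g) = fc ℚ_[2] g := mem_map ℚ_[2] g
  refine ⟨T, h1, ?_, ?_⟩
  · rw [e1]; exact h2
  · rw [e1, e2]
    intro S hS
    exact h3 (h S hS)

end aux

/-- **The span of few points.** -/
theorem result :
    (∀ (K : Type) [Field K] [CharZero K] (σ : K →+* ℚ_[2]) (n : ℕ) (f : MvPolynomial (Fin n) K),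
      n ≠ 0 → StronglyAdapted (map σ f) →
      -- (1) the odd multiples of a point
      (∀ P, OnCover f P → (∀ S, OnCover (map σ f) S → Congr σ S P →
        S ∈ Closure σ (OddMultiples f P)) ∧ (P ∈ Central f → OddMultiples f P ⊆ Central f)) ∧
      -- (2) the closure of the set of the central points
      Closure σ (Central f) = {S | OnCover (map σ f) S ∧ ∃ P ∈ Central f, Congr σ S P} ∧
      -- (3) few points span a dense set of points
      ∃ T : Finset ((Fin n → K) × K), T.card ≤ 8 ^ n + 1 ∧ Spans f σ T) ∧
    -- (4) the residue class modulo `4`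
    (∀ (n : ℕ) (g : MvPolynomial (Fin n) ℤ), (∀ i, g.degreeOf i ≤ 4) →
      StronglyAdapted (map (Int.castRingHom ℚ_[2]) (member g))) ∧
    -- (5) seventeen points on the surfaces
    (∀ (K : Type) [Field K] [CharZero K] (σ : K →+* ℚ_[2]) (g : MvPolynomial (Fin 2) ℤ),
      (∀ i, g.degreeOf i ≤ 4) → ∃ T : Finset ((Fin 2 → K) × K), T.card ≤ 17 ∧
        Spans (map (Int.castRingHom K) (member g)) σ T) ∧
    -- (6) dense in the set of all the `2`-adic points
    (∀ P : MvPolynomial (Fin 2 → Fin 5) ℂ, P ≠ 0 → ∃ c : (Fin 2 → Fin 5) → ℤ,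
      eval (fun e => (c e : ℂ)) P ≠ 0 ∧ DenseSpan (member (poly c))) ∧
    -- (7) an example
    DenseSpan exampleK3 := by
  refine ⟨fun K _ _ σ n f hn hf => ?_, ?_, ?_, ?_, ?_⟩
  · obtain ⟨hf', hu⟩ := adapted_of _ hf
    have hd := map_degreeOf hf'.1
    refine ⟨fun P hP => ⟨fun S hS hc => ?_, fun hP' => ?_⟩, ?_, ?_⟩
    · exact level hn hf' hu (odds_cm hd P) ⟨hP, 0, by simp⟩ hS hc
    · exact Pool.Agent.Q35.ZC.odds_ct Pool.Agent.Q35.ZC.map2 hP'
    · exact cl_eq hn hf' hu (ct_cm hd)
    · obtain ⟨T, h1, h2, h3, h4⟩ := few_gen hn hf' hu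
      exact ⟨T, h1, spans_of h2 h3 h4⟩
  · intro n g hg
    have e : map (Int.castRingHom ℚ_[2]) (member g) = fc ℚ_[2] g := mem_map ℚ_[2] g
    rw [e]
    exact strongly_of (cls_adapted hg) (cls_unit hg)
  · intro K _ _ σ g hg
    have e : map (Int.castRingHom K) (member g) = fc K g := mem_map K g
    obtain ⟨T, h1, h2, h3, h4⟩ := few_two hg σ
    rw [e]
    exact ⟨T, h1, spans_of h2 h3 h4⟩
  · intro P hP
    obtain ⟨c₀, M, h1⟩ := zar_dense hP
    obtain ⟨c, h2, h3⟩ := dense_two c₀ M
    exact ⟨c, h1 c h2, dense_of (gp_deg c) h3⟩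
  · have he : exampleK3 = member gex := by
      unfold exampleK3 member gex uu
      rw [Fin.prod_univ_two, Fin.sum_univ_two]
      ring
    rw [he]
    exact dense_of gex_deg fun S hS => ex_dense hS

end Pool.Agent.Results.MP_9207e0_ag.SpanOfFewPoints
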