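import Pool.Agent.Run7.h848.XG.Trans

/-!
# Zero-cycles on K3 surfaces and the transcendental motive

Let `X` be a K3 surface over a number field `k` or over `ℚ̄`, and `r = 22 - rk Pic(X_ℚ̄)` the rank of its
transcendental lattice. Let `M = t₂(X)` be the transcendental part of the motive `h(X)`: a direct summand
of the Chow motive `h(X)` with the cohomology of rank `r` and with `CH(t₂(X)) = CH²(X)₀ ⊗ ℚ` (all the other
parts of `h(X)` have no homologically trivial cycles). The endomorphisms of `t₂(X)` modulo numerical
equivalence are a field `E` (a subfield of the field of the endomorphisms of an irreducible Hodge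
structure), of degree `f = [E : ℚ]`. Let `d = dim CH²(X)₀ ⊗ ℚ`, maybe infinite; the question predicts that
`d = 0`. Let `ρ(n)` be the rank of the group of the cycles of all codimensions on `X ^ n` modulo numerical
equivalence, and `η(n)` the dimension, maybe infinite, of `⊕ CH^m_hom(X ^ n)_ℚ`. The conjectures of Beilinson
and Bloch predict that all these spaces are zero, as the powers of `X` have no odd cohomology.

**Theorem.** (1) `η(n) / ρ(n)` converges for `n → ∞` to a limit `N` in `{0, 1, 2, …, ∞}`, `N = 0` if and only if
all `η(n)` are zero, and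

  `r d ≤ f N`.

If `d ≠ 0`, then `N ≥ r = 22 - rk Pic(X_ℚ̄)`. If `N` is finite then `d = l f` with an integer `l`, `l r ≤ N`, and
`dim CH_hom(Z)_ℚ ≥ l dim Hom(t₂(X), h(Z)) / num` for all smooth projective varieties `Z` over `k`.

So a single zero-cycle of degree zero on `X` of infinite order makes `η(n) / ρ(n)` at least `22 - rk Pic - ε` for all
large `n`, and in the other direction the answer to the question is positive for `X` (all the elements of
`CH²(X)₀` are torsion) as soon as `η(n) < (22 - rk Pic - ε) ρ(n)` for some `ε > 0` and infinitely many `n`.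

(2) Moreover one of the following holds, without any limit:
* `f dim CH_hom(Z)_ℚ ≥ d dim Hom(t₂(X), h(Z)) / num` for ALL smooth projective `Z` (for instance for all
  powers of `X`);
* for ALL `a ≥ 0` the dimension of `CH_hom(X ^ (a + 1))_ℚ` is at least `(a + 1) ρ(a)`, and the same for the powers
  of the motive `t₂(X)`.

The setting. `C` is the category of Chow motives over `k` with coefficients in a field `Λ` of characteristic
zero (`Λ = ℚ`; graded pieces added), `T = h(X)`, `tp T n = h(X ^ n)`, `R` the singular cohomology with coefficients
extended to an algebraically closed field, `par` is `1` on the even and `-1` on the odd cohomology, `bt` the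
dimension of the realisation. No standard conjecture is assumed: the sign conjecture is trivial for `X`. `T` can be
the motive of any variety without odd cohomology with a numerically simple summand `M`, for instance of a
regular surface.

Proof. (1), the first line: the law of `N64/AF` of the starting tree. If `N` is finite, then all numerically trivial
endomorphisms of `t₂(X)` are nilpotent on `CH(t₂(X))`, and this space is filtered by `l` pieces isomorphic to `E`:
a cycle `z` in such a piece is killed by `1 - e` and by no morphism `e c` which is not numerically trivial, `e` an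
idempotent modulo numerical equivalence; since `M` is simple, `e` is the identity modulo numerical
equivalence, and `Hom(M, h(Z))` modulo numerical equivalence is a subquotient of `CH_hom(Z)`, `l` times. The
quotient `dim Hom(M, h(X ^ n)) / ρ(n)` converges to the rank `r` of `M` (`eventually_nr`). (2): if a numerically trivial
endomorphism is not nilpotent, then it has, up to a polynomial, a fixed vector, whose products with
cycles on `X ^ a` are independent modulo numerical equivalence (`phantom`).
-/

set_option autoImplicit false

open CategoryTheory MonoidalCategory Filter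
open Pool.Agent.Y112.SR Pool.Agent.Y112.KD Pool.Agent.N64.AF Pool.Agent.Run7.h848.XG

namespace Pool.Agent.Results.MP_9207e0_ag.TranscendentalMotive

universe v u w t

/-- The cycles on a simple summand `M` of the motive `T` of a variety without odd cohomology, and the
homologically trivial cycles on the powers of `T`. -/
theorem result {C : Type u} [Category.{v} C] [Preadditive C] [MonoidalCategory C]
    [MonoidalPreadditive C] [SymmetricCategory C] [RightRigidCategory C]
    {Λ : Type t} [Field Λ] [CharZero Λ] [Linear Λ C] [MonoidalLinear Λ C]
    {K : Type w} [Field K] [IsAlgClosed K] [Algebra Λ K] {R : SuperRealisation C K}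
    (hR : IsReal Λ R) {T : C} [ExactPairing T T] (hT : R.par T = 𝟙 _) (hr : Summand (𝟙_ C) T)
    {M : C} (hM : NumSimple M) (hs : Summand M T) :
    (∃ N : ℕ∞, RatioTo Λ T (fun n => eta hR (tp T n)) N ∧
      (N = 0 ↔ ∀ (n : ℕ) (α : 𝟙_ C ⟶ tp T n), R.H.map α = 0 → α = 0) ∧
      (bt R M : ℕ∞) * eta hR M ≤ N * homRank Λ M M ∧
      (eta hR M ≠ 0 → (bt R M : ℕ∞) ≤ N) ∧
      (N ≠ ⊤ → ∃ l : ℕ, eta hR M = (l * homRank Λ M M : ℕ) ∧ (l * bt R M : ℕ) ≤ N ∧
        ∀ Z : C, l * homRank Λ M Z ≤ eta hR Z)) ∧
    ((∀ Z : C, eta hR M * homRank Λ M Z ≤ homRank Λ M M * eta hR Z) ∨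
      ∀ a : ℕ, (a + 1) * (numRank Λ (tp M a) : ℕ∞) ≤ eta hR (tp M (a + 1)) ∧
        (a + 1) * (numRank Λ (tp T a) : ℕ∞) ≤ eta hR (tp T (a + 1))) := by
  have h : IsPow Λ R T :=
    ⟨hR, ⟨𝟙 T, by rw [CategoryTheory.Functor.map_id, hT, two_smul]⟩, hr⟩
  have hsub : ∀ Z : C, Subsingleton (homSub hR (𝟙_ C) Z) ↔
      ∀ α : 𝟙_ C ⟶ Z, R.H.map α = 0 → α = 0 := by
    intro Z
    rw [Submodule.subsingleton_iff_eq_bot, eq_bot_iff]
    constructor
    · intro h1 α hα
      exact (Submodule.mem_bot _).1 (h1 hα)
    · intro h1 α hα
      exact (Submodule.mem_bot _).2 (h1 α hα)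
  obtain ⟨⟨N, h1, h2, h3, h4, h5⟩, h6⟩ := summand_main h hM hs (homFun hR)
  exact ⟨⟨N, h1, h2.trans (forall_congr' fun n => hsub _), h3, h4, h5⟩, h6⟩

end Pool.Agent.Results.MP_9207e0_ag.TranscendentalMotive
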